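import Pool.Agent.Lib.MP_602b76_co_Never.Defs
import Pool.Agent.Lib.MP_602b76_co_Gen.Rate

open Pool.Agent.Lib.MP_602b76_co_Never

open Classical in
/-- Almost all generating sets of `ℤ^d` with `k > d` elements are not nested, with a power saving.
`G` is the family of all `k`-element sets of nonzero vectors with entries in `[-N, N]` which
generate `ℤ^d`. At most `N ^ (-c) * |G|` of the sets `U` in `G`, `c = c(d, k) > 0`, have an
enumeration of `ℤ^d` whose initial segments of size `n` with `n ^ (k - d) ≤ (2 k N) ^ (d k)` are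
all edge-optimal in the Cayley graph of `U`. -/
theorem Pool.Agent.Results.MP_602b76_co.AlmostAll.result :
    ∀ d k : ℕ, 0 < d → d < k → ∃ c : ℝ, 0 < c ∧ ∃ N0 : ℕ, ∀ N : ℕ, N0 ≤ N →
      ∃ G : Finset (Finset (Fin d → ℤ)),
        (∀ U : Finset (Fin d → ℤ), U ∈ G ↔ U.card = k ∧ (0 : Fin d → ℤ) ∉ U ∧
          (∀ u ∈ U, ∀ i, |u i| ≤ (N : ℤ)) ∧
            AddSubgroup.closure (U : Set (Fin d → ℤ)) = ⊤) ∧
        0 < G.card ∧
        ((G.filter (fun U => ∃ e : ℕ ≃ (Fin d → ℤ), ∀ n : ℕ,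
          n ^ (k - d) ≤ (2 * k * N) ^ (d * k) →
            EdgeOptimal U ((Finset.range n).image ⇑e))).card : ℝ) ≤
              (N : ℝ) ^ (-c) * (G.card : ℝ) := by
  intro d k hd hdk
  obtain ⟨c, hc, N0, h⟩ := Pool.Agent.Lib.MP_602b76_co_Gen.rate_sets d k hd hdk
  refine ⟨c, hc, N0, fun N hN => ⟨Pool.Agent.Lib.MP_602b76_co_Gen.gs d k N, fun U => ?_,
    (h N hN).1, (h N hN).2⟩⟩
  rw [Pool.Agent.Lib.MP_602b76_co_Gen.mem_gs]
  constructor
  · rintro ⟨⟨h1, h2⟩, h3⟩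
    refine ⟨h2, fun h0 => ?_, fun u hu i => ?_, h3⟩
    · exact (Finset.mem_erase.1 (h1 h0)).1 rfl
    · have h4 := Finset.mem_of_mem_erase (h1 hu)
      unfold Pool.Agent.Lib.MP_602b76_co_Gen.bx at h4
      exact abs_le.2 (Finset.mem_Icc.1 (Fintype.mem_piFinset.1 h4 i))
  · rintro ⟨h1, h2, h3, h4⟩
    refine ⟨⟨fun u hu => ?_, h1⟩, h4⟩
    refine Finset.mem_erase.2 ⟨fun h0 => h2 (h0 ▸ hu), ?_⟩
    unfold Pool.Agent.Lib.MP_602b76_co_Gen.bx
    exact Fintype.mem_piFinset.2 (fun i => Finset.mem_Icc.2 (abs_le.1 (h3 u hu i)))
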