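import Pool.Agent.Lib.MP_602b76_co_Never.Defs
import Pool.Agent.Lib.MP_602b76_co_Far.Final
import Pool.Agent.Lib.MP_602b76_co_Large.Final

open Pool.Agent.Lib.MP_602b76_co_Never

/-- Dimensions one and two: any finite set `V` of nonzero vectors of full rank stops being nested
once any sufficiently far generator `b` is added. With `‖b‖ = ∑ i, |b i|`, every enumeration of
`ℤ^d` has an initial segment, of size at most `‖b‖ ^ (2 d)`, which is not edge-optimal in the
Cayley graph of `V ∪ {b}`. -/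
theorem Pool.Agent.Results.MP_602b76_co.FarGenerator.result :
    ∀ d : ℕ, d ≤ 2 → ∀ V : Finset (Fin d → ℤ), (0 : Fin d → ℤ) ∉ V →
      (AddSubgroup.closure (V : Set (Fin d → ℤ))).FiniteIndex →
        ∃ B : ℕ, ∀ b : Fin d → ℤ, (B : ℤ) ≤ ∑ i, |b i| →
          AddSubgroup.closure (insert b V : Set (Fin d → ℤ)) = ⊤ →
            ∀ e : ℕ ≃ (Fin d → ℤ), ∃ n : ℕ, (n : ℤ) ≤ (∑ i, |b i|) ^ (2 * d) ∧
              ¬ EdgeOptimal (insert b V) ((Finset.range n).image ⇑e) := by
  intro d hd V h0 hfin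
  match d, hd with
  | 0, _ =>
    refine ⟨1, fun b hb => ?_⟩
    rw [Finset.univ_eq_empty, Finset.sum_empty] at hb
    exact absurd hb (by norm_num)
  | 1, _ =>
    obtain ⟨B, hB⟩ := Pool.Agent.Lib.MP_602b76_co_Large.large_generator V h0
    refine ⟨B, fun b hb hgen e => ?_⟩
    rw [Fin.sum_univ_one] at hb
    obtain ⟨n, h1, h2⟩ := hB b hb hgen e
    refine ⟨n, ?_, h2⟩
    rw [Fin.sum_univ_one, mul_one, sq_abs]
    exact h1
  | 2, _ =>
    obtain ⟨B, hB⟩ := Pool.Agent.Lib.MP_602b76_co_Far.far_plane V h0 hfin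
    refine ⟨B, fun b hb hgen e => ?_⟩
    rw [Fin.sum_univ_two] at hb
    obtain ⟨n, h1, h2⟩ := hB b hb hgen e
    refine ⟨n, ?_, h2⟩
    rw [Fin.sum_univ_two]
    exact h1
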