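import Pool.Agent.Lib.MP_602b76_co_Never.Defs
import Pool.Agent.Lib.MP_602b76_co_Never.Part7

open Pool.Agent.Lib.MP_602b76_co_Never

/-- In every dimension `d ≥ 2` some lattice Cayley graph is not even eventually nested: beyond
every size `N` there are sizes `n < n'` such that no edge-optimal set of size `n` is contained in
an edge-optimal set of size `n'`. -/
theorem Pool.Agent.Results.MP_602b76_co.NeverNested.result :
    ∀ d : ℕ, 2 ≤ d → ∃ U : Finset (Fin d → ℤ), (0 : Fin d → ℤ) ∉ U ∧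
      AddSubgroup.closure (U : Set (Fin d → ℤ)) = ⊤ ∧
      (∀ N : ℕ, ∃ n n' : ℕ, N ≤ n ∧ n < n' ∧
        ∀ S T : Finset (Fin d → ℤ), S.card = n → T.card = n' →
          EdgeOptimal U S → EdgeOptimal U T → ¬ S ⊆ T) ∧
      ∀ (e : ℕ ≃ (Fin d → ℤ)) (N : ℕ), ∃ n, N ≤ n ∧
        ¬ EdgeOptimal U ((Finset.range n).image ⇑e) :=
  never_nested
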