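import Pool.Agent.Lib.MP_602b76_co_Never.Defs
import Pool.Agent.Lib.MP_602b76_co_Two.Final
import Pool.Agent.Lib.MP_602b76_co_Rel.Ker

open Pool.Agent.Lib.MP_602b76_co_Never

/-- Generating sets of `ℤ^d` with at most `d + 1` elements.

(1) `d = 1`: if the absolute values of the generators differ by at most `4`, some enumeration has
all its initial segments edge-optimal; if `|v| ≥ |u| + 5`, every enumeration has an initial
segment of some size `n` with `4 n ≤ (|u| + |v|) ^ 2 + 4` which is not edge-optimal.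

(2) `d ≥ 2`, `0 < c < 1 / (2 (d + 1) (d - 1))`: let `L`, large, be the maximum of the indices of
the subgroups generated by `U` without `u` (index `0` if it is infinite). If at most two of these
indices exceed `L - L ^ (1 - c)`, then every enumeration has an initial segment of some size
`n ≤ L ^ (d + 1)` which is not edge-optimal. -/
theorem Pool.Agent.Results.MP_602b76_co.OneRelation.result :
    (∀ U : Finset (Fin 1 → ℤ), U.card ≤ 2 → (0 : Fin 1 → ℤ) ∉ U →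
      AddSubgroup.closure (U : Set (Fin 1 → ℤ)) = ⊤ →
      ((∀ u ∈ U, ∀ v ∈ U, |v 0| ≤ |u 0| + 4) →
        ∃ e : ℕ ≃ (Fin 1 → ℤ), ∀ n : ℕ, EdgeOptimal U ((Finset.range n).image ⇑e)) ∧
      ∀ u ∈ U, ∀ v ∈ U, |u 0| + 5 ≤ |v 0| → ∀ e : ℕ ≃ (Fin 1 → ℤ),
        ∃ n : ℕ, 4 * (n : ℤ) ≤ (|u 0| + |v 0|) ^ 2 + 4 ∧
          ¬ EdgeOptimal U ((Finset.range n).image ⇑e)) ∧
    ∀ d : ℕ, 2 ≤ d → ∀ c : ℝ, 0 < c → c < 1 / (2 * ((d : ℝ) + 1) * ((d : ℝ) - 1)) →
      ∃ L0 : ℕ, ∀ U : Finset (Fin d → ℤ), U.card = d + 1 → (0 : Fin d → ℤ) ∉ U →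
        AddSubgroup.closure (U : Set (Fin d → ℤ)) = ⊤ → ∀ L : ℕ, L0 ≤ L →
          (∀ u ∈ U, (AddSubgroup.closure ((U.erase u : Finset (Fin d → ℤ)) :
            Set (Fin d → ℤ))).index ≤ L) →
          (∃ u ∈ U, (AddSubgroup.closure ((U.erase u : Finset (Fin d → ℤ)) :
            Set (Fin d → ℤ))).index = L) →
          (U.filter (fun u => (L : ℝ) - (L : ℝ) ^ (1 - c) <
            ((AddSubgroup.closure ((U.erase u : Finset (Fin d → ℤ)) :
              Set (Fin d → ℤ))).index : ℝ))).card ≤ 2 →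
          ∀ e : ℕ ≃ (Fin d → ℤ), ∃ n : ℕ, n ≤ L ^ (d + 1) ∧
            ¬ EdgeOptimal U ((Finset.range n).image ⇑e) :=
  ⟨fun _ hc h0 hgen =>
    ⟨(Pool.Agent.Lib.MP_602b76_co_Two.nested_iff hc h0 hgen).2,
      fun _ hu _ hv huv e =>
        Pool.Agent.Lib.MP_602b76_co_Two.not_nested_bound hc h0 hgen hu hv huv e⟩,
    fun d hd c hc0 hc1 => by
      obtain ⟨L0, h⟩ := Pool.Agent.Lib.MP_602b76_co_Rel.three_indices d hd c hc0 hc1
      exact ⟨L0, fun U h1 _ h2 L h3 h4 h5 h6 e => h U h1 h2 L h3 h4 h5 h6 e⟩⟩
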